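import Pool.Agent.U863.TG.Fs
import Pool.Agent.U863.CT.Gpd

/-!
# Kernels that are restricted products of centreless groups

Owner helper863.
-/

set_option autoImplicit false

namespace Pool.Agent.U863.RP

open Pool.Agent.Y462.SS (Wr Closed)
open Pool.Agent.Y110.FJ
open Pool.Agent.U863.TG (Fsp finitary)

variable {G : Type} [Group G]

/-- the conjugate subgroup -/
def cj (g : G) (A : Subgroup G) : Subgroup G := A.map (MulAut.conj g).toMonoidHom

theorem mem_cj {g x : G} {A : Subgroup G} : x ∈ cj g A ↔ g⁻¹ * x * g ∈ A := by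
  constructor
  · rintro ⟨y, hy, rfl⟩
    show g⁻¹ * (g * y * g⁻¹) * g ∈ A
    have : g⁻¹ * (g * y * g⁻¹) * g = y := by group
    rw [this]
    exact hy
  · intro h
    refine ⟨_, h, ?_⟩
    show g * (g⁻¹ * x * g) * g⁻¹ = x
    group

theorem cj_one (A : Subgroup G) : cj 1 A = A := by
  ext x
  rw [mem_cj, inv_one, one_mul, mul_one]

theorem cj_mul (g h : G) (A : Subgroup G) : cj (g * h) A = cj g (cj h A) := by
  ext x
  rw [mem_cj, mem_cj, mem_cj]
  have : (g * h)⁻¹ * x * (g * h) = h⁻¹ * (g⁻¹ * x * g) * h := by group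
  rw [this]

theorem cj_eq_iff {g : G} {A : Subgroup G} : cj g A = A ↔ g ∈ Subgroup.normalizer (A : Set G) := by
  rw [Subgroup.mem_normalizer_iff]
  constructor
  · intro h x
    have h1 : g * x * g⁻¹ ∈ cj g A ↔ x ∈ A := by
      rw [mem_cj]
      have : g⁻¹ * (g * x * g⁻¹) * g = x := by group
      rw [this]
    rw [h] at h1
    exact h1.symm
  · intro h
    ext x
    rw [mem_cj]
    have h1 := h (g⁻¹ * x * g)
    have : g * (g⁻¹ * x * g) * g⁻¹ = x := by group
    rw [this] at h1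
    exact h1

/-- a set of subgroups which commute pairwise, are centreless and are permuted by conjugation -/
structure Fam (𝒜 : Set (Subgroup G)) : Prop where
  conj : ∀ A ∈ 𝒜, ∀ g : G, A.map (MulAut.conj g).toMonoidHom ∈ 𝒜
  comm : ∀ A ∈ 𝒜, ∀ B ∈ 𝒜, A ≠ B → ∀ a ∈ A, ∀ b ∈ B, a * b = b * a
  cent : ∀ A ∈ 𝒜, ∀ a ∈ A, (∀ b ∈ A, a * b = b * a) → a = 1

section main

variable {𝒜 : Set (Subgroup G)} (h : Fam 𝒜)

/-- the action on the set of subgroups -/
@[instance_reducible] def act
    (h : ∀ A ∈ 𝒜, ∀ g : G, A.map (MulAut.conj g).toMonoidHom ∈ 𝒜) : MulAction G 𝒜 where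
  smul g A := ⟨cj g A, h A A.2 g⟩
  one_smul _ := Subtype.ext (cj_one _)
  mul_smul g k _ := Subtype.ext (cj_mul g k _)

/-- `x` centralizes `A` -/
def Cz (x : G) (A : Subgroup G) : Prop := ∀ a ∈ A, x * a = a * x

theorem Cz.mul {x y : G} {A : Subgroup G} (hx : Cz x A) (hy : Cz y A) : Cz (x * y) A := by
  intro a ha
  rw [mul_assoc, hy a ha, ← mul_assoc, hx a ha, mul_assoc]

theorem Cz.inv {x : G} {A : Subgroup G} (hx : Cz x A) : Cz x⁻¹ A := by
  intro a ha
  have := hx a ha
  rw [inv_mul_eq_iff_eq_mul, ← mul_assoc, this, mul_inv_cancel_right]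

theorem Cz.norm {x : G} {A : Subgroup G} (hx : Cz x A) : cj x A = A := by
  ext a
  rw [mem_cj]
  constructor
  · intro ha
    have h1 := hx _ ha
    have h2 : x * (x⁻¹ * a * x) = a * x := by group
    rw [h2] at h1
    have h3 : a = x⁻¹ * a * x := mul_right_cancel h1
    rwa [h3]
  · intro ha
    have h1 := hx a ha
    rw [mul_assoc, ← h1, ← mul_assoc, inv_mul_cancel, one_mul]
    exact ha

include h in
/-- finitely many members generate a group with trivial centre -/
theorem fin_cent (S : Finset 𝒜) : ∀ n ∈ ⨆ A ∈ S, (A : Subgroup G), (∀ A ∈ S, Cz n (A : Subgroup G)) →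
    n = 1 := by
  classical
  induction S using Finset.induction_on with
  | empty =>
    intro n hn _
    simpa using hn
  | insert A S hA ih =>
    intro n hn hc
    rw [Finset.iSup_insert] at hn
    have hM : ∀ m ∈ ⨆ B ∈ S, (B : Subgroup G), ∀ a ∈ (A : Subgroup G), m * a = a * m := by
      intro m hm
      have h1 : ⨆ B ∈ S, (B : Subgroup G) ≤ Subgroup.centralizer ((A : Subgroup G) : Set G) := by
        refine iSup₂_le fun B hB b hb => ?_
        rw [Subgroup.mem_centralizer_iff]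
        intro a ha
        have hne : (A : Subgroup G) ≠ B := by
          intro h2
          have : A = B := Subtype.ext h2
          rw [this] at hA
          exact hA hB
        exact h.comm A A.2 B B.2 hne a ha b hb
      intro a ha
      exact ((Subgroup.mem_centralizer_iff.1 (h1 hm)) a ha).symm
    let D : Subgroup G :=
      { carrier := {x | ∃ a ∈ (A : Subgroup G), ∃ m ∈ ⨆ B ∈ S, (B : Subgroup G), x = a * m}
        one_mem' := ⟨1, one_mem _, 1, one_mem _, by rw [mul_one]⟩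
        mul_mem' := by
          rintro x y ⟨a, ha, m, hm, rfl⟩ ⟨b, hb, k, hk, rfl⟩
          refine ⟨a * b, mul_mem ha hb, m * k, mul_mem hm hk, ?_⟩
          rw [mul_assoc a m, ← mul_assoc m b, hM m hm b hb]
          group
        inv_mem' := by
          rintro x ⟨a, ha, m, hm, rfl⟩
          refine ⟨a⁻¹, inv_mem ha, m⁻¹, inv_mem hm, ?_⟩
          rw [mul_inv_rev, hM m⁻¹ (inv_mem hm) a⁻¹ (inv_mem ha)] }
    have hD : (A : Subgroup G) ⊔ ⨆ B ∈ S, (B : Subgroup G) ≤ D := by
      refine sup_le ?_ ?_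
      · intro a ha
        exact ⟨a, ha, 1, one_mem _, by rw [mul_one]⟩
      · intro m hm
        exact ⟨1, one_mem _, m, hm, by rw [one_mul]⟩
    obtain ⟨a, ha, m, hm, rfl⟩ := hD hn
    have ha1 : a = 1 := by
      refine h.cent A A.2 a ha fun b hb => ?_
      have h1 := hc A (Finset.mem_insert_self A S) b hb
      rw [mul_assoc, hM m hm b hb, ← mul_assoc, ← mul_assoc] at h1
      exact mul_right_cancel h1
    rw [ha1, one_mul] at hc ⊢
    exact ih m hm fun B hB => hc B (Finset.mem_insert_of_mem hB)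

theorem exists_fin {n : G} (hn : n ∈ sSup 𝒜) : ∃ S : Finset 𝒜, n ∈ ⨆ A ∈ S, (A : Subgroup G) := by
  classical
  let D : Subgroup G :=
    { carrier := {x | ∃ S : Finset 𝒜, x ∈ ⨆ A ∈ S, (A : Subgroup G)}
      one_mem' := ⟨∅, one_mem _⟩
      mul_mem' := by
        rintro x y ⟨S, hS⟩ ⟨T, hT⟩
        refine ⟨S ∪ T, mul_mem ?_ ?_⟩
        · exact (iSup₂_mono' fun A hA => ⟨A, Finset.mem_union_left _ hA, le_rfl⟩ :
            ⨆ A ∈ S, (A : Subgroup G) ≤ ⨆ A ∈ S ∪ T, (A : Subgroup G)) hS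
        · exact (iSup₂_mono' fun A hA => ⟨A, Finset.mem_union_right _ hA, le_rfl⟩ :
            ⨆ A ∈ T, (A : Subgroup G) ≤ ⨆ A ∈ S ∪ T, (A : Subgroup G)) hT
      inv_mem' := by
        rintro x ⟨S, hS⟩
        exact ⟨S, inv_mem hS⟩ }
  have hD : sSup 𝒜 ≤ D := by
    refine sSup_le fun A hA a ha => ⟨{⟨A, hA⟩}, ?_⟩
    simpa using ha
  exact hD hn

include h in
theorem almost {n : G} (hn : n ∈ sSup 𝒜) : (∀ A : 𝒜, cj n (A : Subgroup G) = A) ∧
    ∃ J : Finset 𝒜, ∀ A : 𝒜, A ∉ J → Cz n (A : Subgroup G) := by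
  classical
  let D : Subgroup G :=
    { carrier := {n | (∀ A : 𝒜, cj n (A : Subgroup G) = A) ∧
        ∃ J : Finset 𝒜, ∀ A : 𝒜, A ∉ J → Cz n (A : Subgroup G)}
      one_mem' := ⟨fun A => cj_one _, ∅, fun A _ a _ => by rw [one_mul, mul_one]⟩
      mul_mem' := by
        rintro x y ⟨hx, J, hJ⟩ ⟨hy, K, hK⟩
        refine ⟨fun A => by rw [cj_mul, hy, hx], J ∪ K, fun A hA => ?_⟩
        rw [Finset.mem_union, not_or] at hA
        exact (hJ A hA.1).mul (hK A hA.2)
      inv_mem' := by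
        rintro x ⟨hx, J, hJ⟩
        refine ⟨fun A => ?_, J, fun A hA => (hJ A hA).inv⟩
        have h1 := cj_mul x⁻¹ x (A : Subgroup G)
        rw [inv_mul_cancel, cj_one, hx A] at h1
        exact h1.symm }
  have hD : sSup 𝒜 ≤ D := by
    refine sSup_le fun A hA a ha => ?_
    have h1 : ∀ B : 𝒜, B ≠ ⟨A, hA⟩ → Cz a (B : Subgroup G) := by
      intro B hB b hb
      exact h.comm A hA B B.2 (fun h2 => hB (Subtype.ext h2.symm)) a ha b hb
    refine ⟨fun B => ?_, {⟨A, hA⟩}, fun B hB => h1 B (by simpa using hB)⟩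
    by_cases hB : B = ⟨A, hA⟩
    · rw [hB]
      exact cj_eq_iff.2 (Subgroup.le_normalizer ha)
    · exact (h1 B hB).norm
  exact hD hn

/-- the automorphisms of `B` given by the elements of `H` which normalize `B` -/
def Rg (H B : Subgroup G) : Subgroup (MulAut B) :=
  (H.subgroupOf (Subgroup.normalizer (B : Set G))).map B.normalizerMonoidHom

/-- the action of an element which normalizes `B`, in the free product of all these groups -/
noncomputable def tt (H : Subgroup G) (B : 𝒜) (x : G) :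
    Monoid.CoprodI (fun A : 𝒜 => Rg H (A : Subgroup G)) := by
  classical
  exact if hx : x ∈ Subgroup.normalizer ((B : Subgroup G) : Set G) ∧ x ∈ H then
    Monoid.CoprodI.of (i := B) ⟨(B : Subgroup G).normalizerMonoidHom ⟨x, hx.1⟩, ⟨x, hx.1⟩, hx.2, rfl⟩
      else 1

theorem tt_mul (H : Subgroup G) (B : 𝒜) {x y : G} (hx : cj x (B : Subgroup G) = B) (hxH : x ∈ H)
    (hy : cj y (B : Subgroup G) = B) (hyH : y ∈ H) : tt H B (x * y) = tt H B x * tt H B y := by
  rw [cj_eq_iff] at hx hy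
  rw [tt, tt, tt, dif_pos ⟨mul_mem hx hy, mul_mem hxH hyH⟩, dif_pos ⟨hx, hxH⟩, dif_pos ⟨hy, hyH⟩,
    ← map_mul]
  refine congrArg _ (Subtype.ext ?_)
  exact map_mul (B : Subgroup G).normalizerMonoidHom ⟨x, hx⟩ ⟨y, hy⟩

theorem norm_ker (B : Subgroup G) {x : G} (hx : x ∈ Subgroup.normalizer (B : Set G)) :
    B.normalizerMonoidHom ⟨x, hx⟩ = 1 ↔ Cz x B := by
  have h1 : (⟨x, hx⟩ : Subgroup.normalizer (B : Set G)) ∈ B.normalizerMonoidHom.ker ↔ Cz x B := by
    rw [Subgroup.normalizerMonoidHom_ker, Subgroup.mem_subgroupOf, Subgroup.mem_centralizer_iff]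
    exact ⟨fun h a ha => (h a ha).symm, fun h a ha => (h a ha).symm⟩
  rw [← h1, MonoidHom.mem_ker]

theorem tt_eq_one (H : Subgroup G) (B : 𝒜) {x : G} (hx : cj x (B : Subgroup G) = B) (hxH : x ∈ H) :
    tt H B x = 1 ↔ Cz x (B : Subgroup G) := by
  rw [cj_eq_iff] at hx
  rw [tt, dif_pos ⟨hx, hxH⟩, map_eq_one_iff _ (Monoid.CoprodI.of_injective B), ← norm_ker _ hx]
  exact ⟨fun h => congrArg Subtype.val h, fun h => Subtype.ext h⟩

end main

/-- **kernels which centralize almost all subgroups of a family** -/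
theorem main {C : ∀ (G : Type) [Group G], Prop} (hC : ClosedE C) {𝒜 : Set (Subgroup G)}
    (h : ∀ A ∈ 𝒜, ∀ g : G, A.map (MulAut.conj g).toMonoidHom ∈ 𝒜) (H : Subgroup G)
    (hA : ∀ A ∈ 𝒜, C (Rg H A)) (N : Subgroup H) [N.Normal]
    (hfin : ∀ n ∈ N, {A | A ∈ 𝒜 ∧ ¬ Cz (n : G) A}.Finite)
    (hone : ∀ n ∈ N, (∀ A ∈ 𝒜, Cz (n : G) A) → n = 1) (hQ : C (H ⧸ N)) : C H := by
  classical
  let _ : MulAction G 𝒜 := act h
  have hsm : ∀ (g : G) (A : 𝒜), ((g • A : 𝒜) : Subgroup G) = cj g A := fun _ _ => rfl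
  have hsm' : ∀ (g : H) (A : 𝒜), g • A = (g : G) • A := fun _ _ => rfl
  obtain ⟨r, k, hr, hk⟩ : ∃ (r : 𝒜 → 𝒜) (k : 𝒜 → H), (∀ (g : H) A, r (g • A) = r A) ∧
      ∀ A, k A • r A = A := by
    have h1 : ∀ A : 𝒜, ∃ g : H, g • (Quotient.out (Quotient.mk (MulAction.orbitRel H 𝒜) A)) = A := by
      intro A
      have h2 : (MulAction.orbitRel H 𝒜).r (Quotient.out (Quotient.mk (MulAction.orbitRel H 𝒜) A)) A :=
        Quotient.mk_out (s := MulAction.orbitRel H 𝒜) A
      exact ((MulAction.orbitRel H 𝒜).symm h2)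
    choose k hk using h1
    refine ⟨fun A => Quotient.out (Quotient.mk (MulAction.orbitRel H 𝒜) A), k, fun g A => ?_, hk⟩
    have h3 : Quotient.mk (MulAction.orbitRel H 𝒜) (g • A) = Quotient.mk _ A :=
      Quotient.sound ⟨g, rfl⟩
    show Quotient.out (Quotient.mk (MulAction.orbitRel H 𝒜) (g • A)) = _
    rw [h3]
  have hsec : ∀ (g : H) (A : 𝒜), ((k (g • A))⁻¹ * g * k A) • r A = r A := by
    intro g A
    rw [mul_smul, mul_smul, hk A, inv_smul_eq_iff]
    have := hk (g • A)
    rw [hr] at this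
    exact this.symm
  have hsec' : ∀ (g : H) (A : 𝒜),
      cj (((k (g • A))⁻¹ * g * k A : H) : G) (r A : Subgroup G) = r A :=
    fun g A => congrArg Subtype.val (hsec g A)
  let F : H →* Wr 𝒜 (Monoid.CoprodI (fun A : 𝒜 => Rg H (A : Subgroup G))) :=
    { toFun := fun g => ⟨fun A => tt H (r A) (((k (g • A))⁻¹ * g * k A : H) : G),
        MulAction.toPerm g⟩
      map_one' := by
        refine Wr.ext (funext fun A => ?_) (Equiv.ext fun A => ?_)
        · show tt H (r A) (((k ((1 : H) • A))⁻¹ * 1 * k A : H) : G) = 1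
          rw [one_smul, mul_one, inv_mul_cancel, Subgroup.coe_one, tt_eq_one _ _ (cj_one _) (one_mem H)]
          intro a _
          rw [one_mul, mul_one]
        · show (1 : H) • A = A
          rw [one_smul]
      map_mul' := by
        intro g g'
        refine Wr.ext (funext fun A => ?_) (Equiv.ext fun A => ?_)
        · show tt H (r A) (((k ((g * g') • A))⁻¹ * (g * g') * k A : H) : G) =
            tt H (r (g' • A)) (((k (g • g' • A))⁻¹ * g * k (g' • A) : H) : G) *
              tt H (r A) (((k (g' • A))⁻¹ * g' * k A : H) : G)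
          rw [hr]
          have h1 := hsec' g (g' • A)
          rw [hr] at h1
          rw [← tt_mul H _ h1 (SetLike.coe_mem _) (hsec' g' A) (SetLike.coe_mem _), mul_smul,
            ← Subgroup.coe_mul]
          congr 2
          group
        · show (g * g') • A = g • g' • A
          rw [mul_smul] }
  have hFs : ∀ (g : H) (A : 𝒜), (F g).s A = tt H (r A) (((k (g • A))⁻¹ * g * k A : H) : G) :=
    fun _ _ => rfl
  have key : ∀ (n : H) (A : 𝒜), n • A = A → ((F n).s A = 1 ↔ Cz (n : G) (A : Subgroup G)) := by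
    intro n A h1
    have h2 := hsec' n A
    rw [hFs]
    rw [h1] at h2 ⊢
    rw [tt_eq_one _ _ h2 (SetLike.coe_mem _)]
    have h3 : (A : Subgroup G) = cj (k A : G) (r A : Subgroup G) := by
      rw [← hsm, ← hsm', hk]
    rw [Subgroup.coe_mul, Subgroup.coe_mul, Subgroup.coe_inv]
    constructor
    · intro h4 a ha
      rw [h3, mem_cj] at ha
      have h5 := h4 _ ha
      have h6 : (k A : G)⁻¹ * n * k A * ((k A : G)⁻¹ * a * k A) = (k A : G)⁻¹ * (n * a) * k A := by
        group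
      have h7 : (k A : G)⁻¹ * a * k A * ((k A : G)⁻¹ * n * k A) = (k A : G)⁻¹ * (a * n) * k A := by
        group
      rw [h6, h7] at h5
      exact mul_left_cancel (mul_right_cancel h5)
    · intro h4 a ha
      have h5 : (k A : G) * a * (k A : G)⁻¹ ∈ (A : Subgroup G) := by
        rw [h3, mem_cj]
        have : (k A : G)⁻¹ * ((k A : G) * a * (k A : G)⁻¹) * k A = a := by group
        rw [this]
        exact ha
      have h6 := h4 _ h5
      have h7 : (k A : G)⁻¹ * n * k A * a = (k A : G)⁻¹ * (n * ((k A : G) * a * (k A : G)⁻¹)) * k A := by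
        group
      have h8 : a * ((k A : G)⁻¹ * n * k A) = (k A : G)⁻¹ * (((k A : G) * a * (k A : G)⁻¹) * n) * k A := by
        group
      rw [h7, h8, h6]
  refine finitary hC (Pool.Agent.U863.CT.C_coprodI C hC.base (fun A : 𝒜 => hA A A.2)) F N hQ ?_
  intro n hn
  have hJ := (hfin n hn).preimage (Subtype.val_injective (p := fun A => A ∈ 𝒜)).injOn
  refine ⟨⟨hJ.toFinset, fun A hA => ?_⟩, fun hF => ?_⟩
  · rw [Set.Finite.mem_toFinset] at hA
    have h1 : Cz (n : G) (A : Subgroup G) := by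
      by_contra hcon
      exact hA ⟨A.2, hcon⟩
    have h2 : n • A = A := Subtype.ext h1.norm
    exact ⟨(key n A h2).2 h1, h2⟩
  · refine hone n hn fun A hA => ?_
    have h2 : n • (⟨A, hA⟩ : 𝒜) = ⟨A, hA⟩ := congrArg (fun w : Wr 𝒜 _ => w.p ⟨A, hA⟩) hF
    rw [← key n ⟨A, hA⟩ h2, hF]
    rfl

/-- a group with an infinite cyclic subgroup of finite index, or a finite group -/
def VC {G : Type} [Group G] (V : Subgroup G) : Prop := ∃ c ∈ V, (Subgroup.zpowers c).relIndex V ≠ 0

theorem VC.le {G : Type} [Group G] {V S : Subgroup G} (h : VC V) (hS : S ≤ V) : VC S := by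
  obtain ⟨c, hc, h1⟩ := h
  have h2 : IsCyclic ↥(Subgroup.zpowers c ⊓ S) :=
    isCyclic_of_injective (Subgroup.inclusion (inf_le_left : Subgroup.zpowers c ⊓ S ≤ _))
      (Subgroup.inclusion_injective _)
  obtain ⟨⟨d, hd⟩, hd2⟩ := h2.exists_generator
  refine ⟨d, hd.2, ?_⟩
  have h3 : Subgroup.zpowers d = Subgroup.zpowers c ⊓ S := by
    refine le_antisymm ?_ ?_
    · rw [Subgroup.zpowers_le]
      exact hd
    · intro x hx
      obtain ⟨n, hn⟩ := hd2 ⟨x, hx⟩
      exact ⟨n, congrArg Subtype.val hn⟩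
  rw [h3, Subgroup.inf_relIndex_right]
  intro h4
  exact h1 (Subgroup.relIndex_eq_zero_of_le_right hS h4)

/-- the criterion with virtually cyclic quotients -/
theorem main_vc {C : ∀ (G : Type) [Group G], Prop} (hC : ClosedE C) {𝒜 : Set (Subgroup G)}
    (h : ∀ A ∈ 𝒜, ∀ g : G, A.map (MulAut.conj g).toMonoidHom ∈ 𝒜) (N : Subgroup G) [N.Normal]
    (hA : ∀ A ∈ 𝒜, ∀ V : Subgroup (G ⧸ N), VC V → C (Rg (V.comap (QuotientGroup.mk' N)) A))
    (hfin : ∀ n ∈ N, {A | A ∈ 𝒜 ∧ ¬ Cz n A}.Finite)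
    (hone : ∀ n ∈ N, (∀ A ∈ 𝒜, Cz n A) → n = 1) (hQ : C (G ⧸ N)) : C G := by
  refine hC.ext G (G ⧸ N) (QuotientGroup.mk' N) (QuotientGroup.mk'_surjective N) hQ fun V hV => ?_
  obtain ⟨H, hH⟩ : ∃ H, H = V.comap (QuotientGroup.mk' N) := ⟨_, rfl⟩
  have h1 := fun A hA' => hA A hA' V hV
  rw [← hH] at h1 ⊢
  refine main hC h H h1 (N.subgroupOf H) ?_ ?_ ?_
  · intro n hn
    exact hfin _ hn
  · intro n hn hc
    exact Subtype.ext (hone _ hn hc)
  · have h2 : (N.subgroupOf H) = ((QuotientGroup.mk' N).comp H.subtype).ker := by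
      ext x
      rw [Subgroup.mem_subgroupOf, MonoidHom.mem_ker]
      exact (QuotientGroup.eq_one_iff _).symm
    have h3 : Function.Injective (QuotientGroup.lift (N.subgroupOf H)
        ((QuotientGroup.mk' N).comp H.subtype) (fun x hx => by rw [h2] at hx; exact hx)) := by
      rw [injective_iff_map_eq_one]
      intro x hx
      obtain ⟨y, rfl⟩ := QuotientGroup.mk_surjective x
      rw [QuotientGroup.eq_one_iff, h2]
      exact hx
    exact hC.base.of_injective _ _ _ h3 hQ

/-- **restricted products of centreless groups** -/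
theorem restricted {C : ∀ (G : Type) [Group G], Prop} (hC : ClosedE C) {𝒜 : Set (Subgroup G)}
    (h : Fam 𝒜) (hA : ∀ A ∈ 𝒜, ∀ U : Subgroup (MulAut A), (MulAut.conj (G := A)).range ≤ U →
      (∃ c ∈ U, ((MulAut.conj (G := A)).range ⊔ Subgroup.zpowers c).relIndex U ≠ 0) → C U)
    (N : Subgroup G) [N.Normal] (hN : N = sSup 𝒜) (hQ : C (G ⧸ N)) : C G := by
  refine main_vc hC h.conj N ?_ ?_ ?_ hQ
  · intro A hA' V hV
    -- elements of `N` act on `A` by inner automorphisms
    have hin : ∀ n ∈ N, ∃ a ∈ A, Cz (a⁻¹ * n) A := by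
      let D : Subgroup G :=
        { carrier := {n | ∃ a ∈ A, Cz (a⁻¹ * n) A}
          one_mem' := ⟨1, one_mem _, fun b _ => by simp⟩
          mul_mem' := by
            rintro x y ⟨a, ha, hx⟩ ⟨b, hb, hy⟩
            refine ⟨a * b, mul_mem ha hb, ?_⟩
            have h1 : (a * b)⁻¹ * (x * y) = b⁻¹ * (a⁻¹ * x) * b * (b⁻¹ * y) := by group
            rw [h1]
            refine Cz.mul ?_ hy
            have h2 : b⁻¹ * (a⁻¹ * x) * b = a⁻¹ * x := by
              rw [mul_assoc, hx b hb, inv_mul_cancel_left]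
            rw [h2]
            exact hx
          inv_mem' := by
            rintro x ⟨a, ha, hx⟩
            refine ⟨a⁻¹, inv_mem ha, ?_⟩
            have h1 : a⁻¹⁻¹ * x⁻¹ = a * (a⁻¹ * x)⁻¹ * a⁻¹ := by group
            rw [h1]
            have h2 : a * (a⁻¹ * x)⁻¹ * a⁻¹ = (a⁻¹ * x)⁻¹ := by
              rw [← (hx.inv a ha), mul_inv_cancel_right]
            rw [h2]
            exact hx.inv }
      have hD : N ≤ D := by
        rw [hN]
        refine sSup_le fun B hB b hb => ?_
        by_cases hAB : B = A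
        · subst hAB
          exact ⟨b, hb, fun c _ => by simp⟩
        · exact ⟨1, one_mem _, fun a ha => by
            rw [inv_one, one_mul]
            exact h.comm B hB A hA' hAB b hb a ha⟩
      exact fun n hn => hD hn
    have hAN : A ≤ N := by
      rw [hN]
      exact le_sSup hA'
    have hNn : N ≤ Subgroup.normalizer (A : Set G) := by
      intro n hn
      rw [← cj_eq_iff]
      exact (almost h (by rwa [← hN])).1 ⟨A, hA'⟩
    obtain ⟨H, hH⟩ : ∃ H, H = V.comap (QuotientGroup.mk' N) := ⟨_, rfl⟩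
    have hNH : N ≤ H := by
      rw [hH]
      intro n hn
      rw [Subgroup.mem_comap]
      have : QuotientGroup.mk' N n = 1 := (QuotientGroup.eq_one_iff n).2 hn
      rw [this]
      exact one_mem V
    rw [← hH]
    refine hA A hA' (Rg H A) ?_ ?_
    · rintro _ ⟨a, rfl⟩
      refine ⟨⟨a, Subgroup.le_normalizer a.2⟩, hNH (hAN a.2), ?_⟩
      ext b
      rfl
    · -- the image of the normalizer in the virtually cyclic group
      have hS : VC ((H ⊓ Subgroup.normalizer (A : Set G)).map (QuotientGroup.mk' N)) := by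
        refine VC.le (V := V) hV ?_
        rintro _ ⟨x, hx, rfl⟩
        have := hx.1
        rw [hH] at this
        exact this
      obtain ⟨_, ⟨c, hc, rfl⟩, hrel⟩ := hS
      refine ⟨A.normalizerMonoidHom ⟨c, hc.2⟩, ⟨⟨c, hc.2⟩, hc.1, rfl⟩, ?_⟩
      -- the preimage of `⟨c⟩` has finite index
      have h1 : (N ⊔ Subgroup.zpowers c).relIndex (H ⊓ Subgroup.normalizer (A : Set G)) ≠ 0 := by
        have h2 : (Subgroup.zpowers (QuotientGroup.mk' N c)).comap (QuotientGroup.mk' N) =
            N ⊔ Subgroup.zpowers c := by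
          rw [← MonoidHom.map_zpowers, Subgroup.comap_map_eq, QuotientGroup.ker_mk', sup_comm]
        rw [← h2]
        have h3 := Subgroup.relIndex_comap (Subgroup.zpowers (QuotientGroup.mk' N c))
          (QuotientGroup.mk' N) (H ⊓ Subgroup.normalizer (A : Set G))
        rw [h3]
        exact hrel
      have h4 : ((N ⊔ Subgroup.zpowers c).subgroupOf (Subgroup.normalizer (A : Set G))).map
          A.normalizerMonoidHom ≤ (MulAut.conj (G := A)).range ⊔
            Subgroup.zpowers (A.normalizerMonoidHom ⟨c, hc.2⟩) := by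
        rintro _ ⟨⟨x, hx⟩, hx', rfl⟩
        obtain ⟨n, hn, _, ⟨k, rfl⟩, hnk⟩ := Subgroup.mem_sup_of_normal_left.1
          (show x ∈ N ⊔ Subgroup.zpowers c from hx')
        have h5 : (⟨x, hx⟩ : Subgroup.normalizer (A : Set G)) = ⟨n, hNn hn⟩ * ⟨c, hc.2⟩ ^ k :=
          Subtype.ext hnk.symm
        rw [h5, map_mul, map_zpow]
        refine mul_mem (Subgroup.mem_sup_left ?_)
          (Subgroup.mem_sup_right (zpow_mem (Subgroup.mem_zpowers _) k))
        obtain ⟨a, ha, haz⟩ := hin n hn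
        refine ⟨⟨a, ha⟩, ?_⟩
        ext b
        have h6 := haz b b.2
        show a * b * a⁻¹ = n * b * n⁻¹
        have h7 : n * b = a * (a⁻¹ * n * b) := by group
        rw [h7, h6]
        group
      rw [Rg, ← Subgroup.relIndex_comap]
      intro h0
      have h5 : (N ⊔ Subgroup.zpowers c).subgroupOf (Subgroup.normalizer (A : Set G)) ≤
          ((MulAut.conj (G := A)).range ⊔
            Subgroup.zpowers (A.normalizerMonoidHom ⟨c, hc.2⟩)).comap A.normalizerMonoidHom :=
        Subgroup.map_le_iff_le_comap.1 h4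
      have h6 := Subgroup.relIndex_dvd_of_le_left
        (H.subgroupOf (Subgroup.normalizer (A : Set G))) h5
      have h7 : H.subgroupOf (Subgroup.normalizer (A : Set G)) =
          (H ⊓ Subgroup.normalizer (A : Set G)).subgroupOf (Subgroup.normalizer (A : Set G)) :=
        (Subgroup.inf_subgroupOf_right _ _).symm
      rw [h0, zero_dvd_iff, h7, Subgroup.relIndex_subgroupOf inf_le_right] at h6
      exact h1 h6
  · intro n hn
    obtain ⟨-, J, hJ⟩ := almost h (by rwa [← hN])
    refine (J.finite_toSet.image Subtype.val).subset ?_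
    rintro A ⟨hA, hc⟩
    refine ⟨⟨A, hA⟩, ?_, rfl⟩
    by_contra hcon
    exact hc (hJ ⟨A, hA⟩ hcon)
  · intro n hn hc
    rw [hN] at hn
    obtain ⟨S, hS⟩ := exists_fin hn
    exact fin_cent h S n hS fun A _ => hc A A.2

end Pool.Agent.U863.RP
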